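import Pool.Agent.H40.Iso2

open Pool.Agent.H40.Isotyp in
theorem Pool.Agent.Results.MP_74a3dd_lc.NotFinGen.result :
    ∃ (L : FirstOrder.Language.{0, 0}) (E : Set (L.Term ℕ × L.Term ℕ))
      (H₁ H₂ : Type) (_ : L.Structure H₁) (_ : L.Structure H₂),
      (∀ m, IsEmpty (L.Relations m)) ∧ InVariety E H₁ ∧ InVariety E H₂ ∧
        FirstOrder.Language.Structure.FG L H₁ ∧ Isotypic L H₁ H₂ ∧
        ¬ FirstOrder.Language.Structure.FG L H₂ :=
  open Pool.Agent.H40.Isotyp2 in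
  ⟨LL, ∅, H 0, X, inferInstance, inferInstance, fun _ => inferInstanceAs (IsEmpty Empty),
    fun _ h => h.elim, fun _ h => h.elim, fg_H 0, iso_X 0, not_fg⟩
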